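import Pool.Agent.H9.CA.TarG

/-!
# Part Q (stationary logic in the models `N_β`) and part Z (assembly). Targets

The facts `F_M1`, ..., `F_M7` are the results of the forcing part which are used here. -/

set_option linter.unusedVariables false

open Ordinal Order Set
open scoped ZFSet

namespace CAA

open SF

/-! ## Facts from the forcing part -/

/-- M1: the models `B_β` -/
def F_M1 : Prop := ∀ (D : Dat) (G : V) (β : Ordinal.{0}), D.Ok → Gen D.M D.c D.r G → β < D.κ →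
  ((D.B G β : V) : Set V).Countable ∧ ZFCm (· ∈ D.B G β) ∧
  (∀ α : Ordinal.{0}, α.toZFSet ∈ D.B G β ↔ α < D.θ) ∧
  (∀ x, D.M x → x ∈ D.B G β) ∧ D.a G β ∈ D.B G β ∧ Inac (· ∈ D.B G β) D.κ ∧
  (∀ ρ < D.θ, ∃ ρ', ρ < ρ' ∧ ρ' < D.θ ∧ ZFm (· ∈ LA (D.a G β) ρ')) ∧
  ∀ z ∈ D.a G β, ∃ i < D.κ, ∃ q ∈ LA ∅ D.κ, q ⊆ (D.μ i).toZFSet ∧ z = ZFSet.pair i.toZFSet q

/-- M2: the models are decreasing -/
def F_M2 : Prop := ∀ (D : Dat) (G : V) (α β : Ordinal.{0}), D.Ok → Gen D.M D.c D.r G → α ≤ β →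
  β < D.κ → D.B G β ⊆ D.B G α

/-- M3: the clubs -/
def F_M3 : Prop := ∀ (D : Dat) (G : V) (β i : Ordinal.{0}), D.Ok → Gen D.M D.c D.r G → β < D.κ →
  i < D.κ → i.toZFSet ∈ D.A G β →
  (⋃₀ (fib (D.X G) i.toZFSet) : ZFSet) ∈ D.B G β ∧
  IsClub (D.μ i) (⋃₀ (fib (D.X G) i.toZFSet) : ZFSet) ∧
  ∀ δ < D.μ i, δ.toZFSet ∈ (⋃₀ (fib (D.X G) i.toZFSet) : ZFSet) → ¬ InE D.κ (D.γ i) δ

/-- M4: stationarity, and regularity of `μ i` -/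
def F_M4 : Prop := ∀ (D : Dat) (G : V) (β i : Ordinal.{0}), D.Ok → Gen D.M D.c D.r G → β < D.κ →
  i < D.κ → (i.toZFSet ∉ D.A G β → ∀ C ∈ D.B G β, IsClub (D.μ i) C →
    ∃ δ < D.μ i, δ.toZFSet ∈ C ∧ InE D.κ (D.γ i) δ) ∧
  ∀ x ∈ D.B G β, Sm (· ∈ D.B G β) (LA ∅ (D.γ i)) x → x ⊆ (D.μ i).toZFSet →
    ∃ η < D.μ i, x ⊆ η.toZFSet

/-- M5: homogeneity -/
def F_M5 : Prop := ∀ (D : Dat) (G : V) (β : Ordinal.{0}), D.Ok → Gen D.M D.c D.r G → β < D.κ →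
  ∀ R : (V → Prop) → (ℕ → V) → Prop, Dfb ZFm R → ∀ (u : V) (v : ℕ → V),
    u ∈ D.B G (succ β) → (∀ i, v i ∈ D.B G (succ β)) →
    (u.sep fun x => R (· ∈ D.B G β) (cons x v)) ∈ D.B G (succ β)

/-- M6: decoding -/
def F_M6 : Prop := ∀ (D : Dat) (G : V) (β : Ordinal.{0}), D.Ok → Gen D.M D.c D.r G → β < D.κ →
  ∀ z, z ∈ D.a G (succ β) ↔ ∃ i q, z = ZFSet.pair i q ∧ i ∈ D.A G β ∧
    β.toZFSet ∈ fst (app D.tf i) ∧ q ∈ LA ∅ D.κ ∧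
    ∃ j ∈ D.A G β, i ∈ j ∧ app D.tf j = ZFSet.pair β.toZFSet (ZFSet.pair (nS 1) (ZFSet.pair i q))

/-- M7: limit steps -/
def F_M7 : Prop := ∀ (D : Dat) (G : V) (β : Ordinal.{0}), D.Ok → Gen D.M D.c D.r G → β < D.κ →
  IsSuccLimit β → ∀ x, (∀ α < β, x ∈ D.N G α) → x ∈ D.N G β

/-! ## Part Q: stationary logic -/

/-- QA: the models `N_β` -/
def T_QA : Prop := ∀ (D : Dat) (G : V) (β : Ordinal.{0}), D.Ok → Gen D.M D.c D.r G → β < D.κ →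
  IsVk (· ∈ D.B G β) D.κ (D.N G β) ∧ D.N G β ∈ D.B G β ∧ ZFC (· ∈ D.N G β) ∧
  (∀ α : Ordinal.{0}, α.toZFSet ∈ D.N G β ↔ α < D.κ) ∧ (∀ x ∈ LA ∅ D.κ, x ∈ D.N G β) ∧
  ((D.N G β : V) : Set V).Countable

/-- QB: the hierarchy `La` in `V_κ` -/
def T_QB : Prop := ∀ (M : V → Prop) (κ : Ordinal.{0}) (N : V), ZFCm M → Inac M κ → IsVk M κ N →
  (∀ α < κ, La (· ∈ N) α ∈ N) ∧ La (· ∈ N) κ ⊆ N ∧ ZFm (· ∈ La (· ∈ N) κ) ∧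
  (∀ α : Ordinal.{0}, α.toZFSet ∈ La (· ∈ N) κ ↔ α < κ) ∧ ∀ x ∈ LA ∅ κ, x ∈ La (· ∈ N) κ

/-- QC: upper bound -/
def T_QC : Prop := ∀ (D : Dat) (G : V) (β : Ordinal.{0}), D.Ok → Gen D.M D.c D.r G →
  succ β < D.κ → La (· ∈ D.N G β) D.κ ⊆ D.N G (succ β)

/-- `δ` is the supremum of `z ∩ m` -/
def Sp (z m δ : V) : Prop := (∀ x ∈ z, x ∈ m → x ∈ δ) ∧ ∀ ξ ∈ δ, ∃ x ∈ z, x ∈ m ∧ (ξ ∈ x ∨ ξ = x)

/-- QD: clubs disjoint from `E` -/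
def T_QD : Prop := ∀ (N : V → Prop) (A C : V) (μ : Ordinal.{0}), ZFm N → N A → N C →
  A.IsTransitive → μ.toZFSet ⊆ A → A.Nonempty → IsClub μ C →
  ∃ F, N F ∧ FinF A F ∧ ∀ z, z ⊆ A → Clo F z →
    ∀ δ < μ, δ ≠ 0 → Sp z μ.toZFSet δ.toZFSet → δ.toZFSet ∈ C

/-- the closure of `x` under the functions `F` -/
noncomputable def clF (F : V) : ℕ → V → V
  | 0, x => x
  | n + 1, x => clF F n x ∪ (rg (rg F)).sep fun y => ∃ (m : ℕ) (l : List V),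
      (∀ p ∈ l, p ∈ clF F n x) ∧ ZFSet.pair (nS m) (ZFSet.pair (lc l) y) ∈ F

/-- the closure of `x` under the functions `F` -/
noncomputable def clo (F x : V) : V := (⋃₀ (imS om fun n => clF F (nn n) x) : ZFSet)

/-- QE: closure under functions: definability, size, finite character -/
def T_QE : Prop := Tm ZFm (fun _ v => clo (v 0) (v 1)) ∧
  (∀ F x, x ⊆ clo F x ∧ Clo F (clo F x) ∧ ∀ z, x ⊆ z → Clo F z → clo F x ⊆ z) ∧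
  (∀ F x y, y ∈ clo F x → ∃ l : List V, (∀ p ∈ l, p ∈ x) ∧
    ∀ z : V, (∀ p ∈ l, p ∈ z) → y ∈ clo F z) ∧
  ∀ (M : V → Prop), ZFCm M → ∀ A F, M A → M F → FinF A F → ∀ x, x ⊆ A → M x →
    clo F x ⊆ A ∧ (∀ C, M C → Gd C → Sm M C x → Sm M C (clo F x)) ∧
    (Ctbl M x → Ctbl M (clo F x))

/-- QF: stationarity gives countable closed sets -/
def T_QF : Prop := ∀ (M : V → Prop) (A C : V) (μ : Ordinal.{0}) (E : Ordinal.{0} → Prop),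
  ZFCm M → M A → M μ.toZFSet → A.IsTransitive → μ.toZFSet ⊆ A → M C → Gd C → IsSuccLimit μ →
  (∀ δ < μ, Sm M C δ.toZFSet) →
  (∀ x, M x → Sm M C x → x ⊆ μ.toZFSet → ∃ η < μ, x ⊆ η.toZFSet) →
  (∀ S, M S → IsClub μ S → ∃ δ < μ, δ.toZFSet ∈ S ∧ E δ) →
  (∀ δ, E δ → δ < μ → ∃ f, M f ∧ ZFSet.IsFunc om δ.toZFSet f ∧
    ∀ ξ < δ, ∃ n : ℕ, ξ.toZFSet ∈ app f (nS n)) →
  ∀ F, M F → FinF A F → ∃ z, M z ∧ Ctbl M z ∧ z ⊆ A ∧ Clo F z ∧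
    ∃ δ < μ, E δ ∧ Sp z μ.toZFSet δ.toZFSet

/-- QG: the formula -/
def T_QG : Prop := ∃ φ : AF, ∀ (N : V → Prop) (A p i : V), A.IsTransitive → p ∈ A → i ∈ A →
  (AaSat N A φ (cons i fun _ => p) (fun _ => ∅) ↔ i ∈ dm p ∧ ∃ F, N F ∧ FinF A F ∧
    ∀ z, N z → Ctbl N z → z ⊆ A → Clo F z →
      ¬ ∃ m e δ, ZFSet.pair i (ZFSet.pair m e) ∈ p ∧ δ ∈ e ∧ Sp z m δ)

/-- QH: initial segments of the set of the active nodes are in `C(aa)` of `N_β` -/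
def T_QH : Prop := ∀ (D : Dat) (G : V) (β : Ordinal.{0}), D.Ok → Gen D.M D.c D.r G → β < D.κ →
  ∀ l < D.κ, D.A G β ∩ l.toZFSet ∈ La (· ∈ D.N G β) D.κ

/-- QI: lower bound -/
def T_QI : Prop := ∀ (D : Dat) (G : V) (β : Ordinal.{0}), D.Ok → Gen D.M D.c D.r G →
  succ β < D.κ → D.N G (succ β) ⊆ La (· ∈ D.N G β) D.κ

/-- QJ: the successor step -/
def T_QJ : Prop := ∀ (D : Dat) (G : V) (β : Ordinal.{0}), D.Ok → Gen D.M D.c D.r G →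
  succ β < D.κ → CA (· ∈ D.N G β) = (· ∈ D.N G (succ β))

/-- QK: strictness -/
def T_QK : Prop := ∀ (D : Dat) (G : V) (β : Ordinal.{0}), D.Ok → Gen D.M D.c D.r G →
  succ β < D.κ → ∃ x ∈ D.N G β, x ∉ D.N G (succ β)

/-- ZA: the iterated sequence -/
def T_ZA : Prop := ∀ (D : Dat) (G : V), D.Ok → Gen D.M D.c D.r G → ∀ β < D.κ,
  It (· ∈ D.N G 0) β = (· ∈ D.N G β)

/-- ZB: the theorem -/
def T_ZB : Prop := Goal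

end CAA
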