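import Pool.Agent.H1.CA.AllF
import Pool.Agent.H65.CA.DM
import Pool.Agent.H92.CA.DN
import Pool.Agent.H75.CA.DP
import Pool.Agent.H75.CA.DR
import Pool.Agent.H74.CA.DV
import Pool.Agent.H85.CA.DW
import Pool.Agent.H74.CA.DX
import Pool.Agent.H69.CA.DY
import Pool.Agent.H47.CA.DZ
import Pool.Agent.H42.CA.GB
import Pool.Agent.H14.CA.GA
import Pool.Agent.H67.CA.GD
import Pool.Agent.H3.CA.GE
import Pool.Agent.H3.CA.GF
import Pool.Agent.H81.CA.GG
import Pool.Agent.H19.CA.QA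
import Pool.Agent.H86.CA.QB
import Pool.Agent.H19.CA.QC
import Pool.Agent.H19.CA.QD
import Pool.Agent.H89.CA.QE
import Pool.Agent.H71.CA.QF
import Pool.Agent.H67.CA.QG
import Pool.Agent.H74.CA.QH
import Pool.Agent.H68.CA.QJ
import Pool.Agent.H33.CA.QK
import Pool.Agent.H68.CA.ZA
import Pool.Agent.H65.CA.ZB
import Pool.Agent.H33.CA.UF
import Pool.Agent.H65.CA.UG
import Pool.Agent.H33.CA.UH
import Pool.Agent.H21.CA.UI
import Pool.Agent.H33.CA.UJ
import Pool.Agent.H47.CA.QI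
import Pool.Agent.H47.CA.UK

/-!
# MP_ceca85_lc: assembly of the theorem
-/

set_option linter.unusedVariables false

open Ordinal Order Set
open scoped ZFSet

namespace CAA

namespace All

open SF

theorem aDM : T_DM := pf_DM
theorem aDN : T_DN := pf_DN aDC aDF aDJ aDK aDL
theorem aDP : T_DP := CAA.H75.dp aDO
theorem aDR : T_DR := CAA.H75.dr aDB aDC aDE aDF aDJ aDK aDL aDO SF.H68.aLAR SF.H68.aLHE
theorem aDV : T_DV := pf_DV
theorem aDW : T_DW := pf_DW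
theorem aDX : T_DX := pf_DX
theorem aDY : T_DY := pf_DY
theorem aDZ : T_DZ := pf_DZ aDX
theorem aGB : T_GB := pf_GB aDF aDG
theorem aGA : T_GA := pf_GA aGB aDF aDH aDM aDN aDO
theorem aGD : T_GD := pf_GD aGC aDF
theorem aGE : T_GE := pf_GE
theorem aGF : T_GF := pf_GF
theorem aGG : T_GG := pf_GG aGD aGE aGF
theorem aQA : T_QA := pf_QA aM1 aDO aDP
theorem aQB : T_QB := pf_QB aDM aDO aDW aDX
theorem aQC : T_QC := pf_QC aM1 aM2 aM5 aQA aQB aDV aDW aDX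
theorem aQD : T_QD := pf_QD aDY
theorem aQE : T_QE := pf_QE
theorem aQF : T_QF := pf_QF aQE aDF
theorem aQG : T_QG := pf_QG
theorem aQH : T_QH := pf_QH aM1 aM3 aM4 aQA aQB aQD aQF aQG aDX aGH
theorem aQK : T_QK := pf_QK aM3 aM4
theorem aUF : CAU.T_UF := CAU.pf_UF
theorem aUG : CAU.T_UG := CAU.pf_UG
theorem aUH : CAU.T_UH := CAU.pf_UH
theorem aUI : CAU.T_UI := CAU.pf_UI
theorem aUJ : CAU.T_UJ := CAU.pf_UJ

theorem aUK : CAU.T_UK := CAU.pf_UK aDU aDQ aDM aDH aDF aDO aGB aGC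
theorem aU : T_U := CAU.t_U aUF aUG aUH aUI aUJ aUK
theorem aQI : T_QI := pf_QI aM1 aM6 aQB aQH aDR aGH
theorem aQJ : T_QJ := Pool.Agent.H68.CA.pf_QJ aQC aQI aDZ aQA
theorem aZA : T_ZA := Pool.Agent.H68.CA.pf_ZA aQJ aM2 aM7

/-- the theorem -/
theorem aZB : Goal := pf_ZB aU aGA aGG aPF aFM aZA aQA aQK aM2

end All

end CAA
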