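import Pool.Agent.H1.CA.TarP
import Pool.Agent.H9.CA.TarQ

/-! The facts `F_M1`, ..., `F_M7` from the targets of the forcing part. -/

set_option linter.unusedVariables false

open Ordinal Order Set
open scoped ZFSet

namespace CAA

open SF

theorem mem_Aa {D : Dat} {G i : V} {β : Ordinal.{0}} : i ∈ D.A G β ↔ i ∈ D.κ.toZFSet ∧
    Ac D.tf (D.X G) (D.H G) i ∧ β.toZFSet ⊆ fst (app D.tf i) := by
  unfold Dat.A As
  rw [ZFSet.mem_sep]

theorem mem_aa {D : Dat} {G z : V} {β : Ordinal.{0}} : z ∈ D.a G β ↔ z ∈ D.X G ∧ IsPr z ∧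
    fst z ∈ D.A G β := by
  unfold Dat.a aS
  rw [ZFSet.mem_sep]
  rfl

theorem f_M2 (hCF : T_CF) : F_M2 := fun D G α β hD hG h1 h2 => (hCF D hD G hG).2 α β h1 h2

theorem f_M1 (hCF : T_CF) (hCH : T_CH) (hPG : T_PG) : F_M1 := by
  intro D G β hD hG hβ
  obtain ⟨h1, h2, h3, h4, h5, h6, -, -, -, h10⟩ := (hCF D hD G hG).1 β hβ
  refine ⟨h3, h1, h6, h4, h2, h10, hCH D hD G hG β hβ, ?_⟩
  intro z hz
  have hz1 : z ∈ D.X G := (mem_aa.1 hz).1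
  obtain ⟨-, hk, hX, -⟩ := hPG D hD G hG
  obtain ⟨k, hkκ, q, hq, rfl⟩ := (hX z).1 hz1
  have hQ := (hk k hkκ).2.1 q hq
  refine ⟨k, hkκ, q, ?_, hQ.2.sub, rfl⟩
  refine hD.grd.subκ (D.μ k).toZFSet ?_ q hQ.1 hQ.2.sub
  exact ord_mem_Lh (fun x hx => absurd hx (ZFSet.notMem_empty x)) (hD.sz.μκ k hkκ)

theorem f_M3 (hCF : T_CF) (hPG : T_PG) (hPC : T_PC) (hCE : T_CE) : F_M3 := by
  intro D G β i hD hG hβ hi hA
  obtain ⟨-, hk, hX, -⟩ := hPG D hD G hG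
  obtain ⟨-, -, -, -, -, -, h8, h9⟩ := hk i hi
  have hfib : fib (D.X G) i.toZFSet = fib (D.a G β) i.toZFSet := by
    ext q
    unfold fib
    rw [ZFSet.mem_sep, ZFSet.mem_sep]
    have e : ZFSet.pair i.toZFSet q ∈ D.X G ↔ ZFSet.pair i.toZFSet q ∈ D.a G β := by
      rw [mem_aa]
      refine ⟨fun h => ⟨h, ⟨_, _, rfl⟩, ?_⟩, fun h => h.1⟩
      rw [fst_pair]
      exact hA
    constructor
    · rintro ⟨-, h⟩
      exact ⟨mem_rg.2 ⟨_, e.1 h⟩, e.1 h⟩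
    · rintro ⟨-, h⟩
      exact ⟨mem_rg.2 ⟨_, e.2 h⟩, e.2 h⟩
  have hB := (hCF D hD G hG).1 β hβ
  have hz : ZFm (· ∈ D.B G β) := hB.1.toZFm
  refine ⟨?_, h8, ?_⟩
  · have h1 : fib (D.X G) i.toZFSet ∈ D.B G β := by
      rw [hfib]
      have h2 := (hPC.2.2.2.2.2.1).1 (· ∈ D.B G β) hz
        (fun n => if n = 0 then D.a G β else i.toZFSet) (fun n => by
          show (if n = 0 then D.a G β else i.toZFSet) ∈ D.B G β
          split_ifs
          · exact hB.2.1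
          · refine (hB.2.2.2.2.2.1 i).2 ?_
            exact lt_trans (lt_trans hi hD.grd.κχ) hD.grd.χθ)
      simpa using h2
    exact hz.union _ h1
  · intro δ hδ h1 h2
    exact h9 _ h1 ((hD.eA i hi _).2 ⟨δ, hδ, rfl, h2⟩)

theorem f_M4 (hCG : T_CG) (hCI : T_CI) : F_M4 := by
  intro D G β i hD hG hβ hi
  refine ⟨fun hA C hC hcl => ?_, fun x hx hs hsub => hCI D hD G hG β hβ i hi x hx hs hsub⟩
  obtain ⟨δ, hδ, h1, h2⟩ := (hCG D hD G hG β hβ i hi).1 hA C hC hcl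
  obtain ⟨δ', hδ', h3, h4⟩ := (hD.eA i hi _).1 h1
  have : δ = δ' := Ordinal.toZFSet_injective h3
  subst this
  exact ⟨δ, hδ, h2, h4⟩

theorem f_M5 (hMC : T_MC) : F_M5 := fun D G β hD hG hβ R hR u v hu hv =>
  hMC D hD G hG β hβ R hR u hu v hv

theorem f_M6 (hCE : T_CE) : F_M6 := by
  intro D G β hD hG hβ z
  obtain ⟨-, -, -, -, h5, -⟩ := hCE D hD G hG
  rw [h5 β hβ, ZFSet.mem_sep]
  constructor
  · rintro ⟨h1, h2, h3, j, hj, h4⟩
    obtain ⟨i, hi, q, hq, rfl⟩ := ZFSet.mem_prod.1 h1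
    rw [fst_pair] at h2 h3
    refine ⟨i, q, rfl, h2, h3, hq, j, hj, ?_, h4⟩
    have hj1 := (mem_Aa.1 hj).2.1
    have hs : snd (app D.tf j) = ZFSet.pair (nS 1) (ZFSet.pair i q) := by
      rw [h4, snd_pair]
    cases hj1 with
    | z _ h => rw [hs] at h; exact absurd h (pair_ne_empty _ _)
    | s _ j' q' h h' _ _ _ =>
      rw [hs] at h
      obtain ⟨-, e⟩ := ZFSet.pair_injective h
      obtain ⟨e1, -⟩ := ZFSet.pair_injective e
      rw [e1]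
      exact h'
    | h _ p h _ =>
      rw [hs] at h
      obtain ⟨e, -⟩ := ZFSet.pair_injective h
      exact absurd (nS_inj.1 e) (by norm_num)
  · rintro ⟨i, q, rfl, h2, h3, hq, j, hj, -, h4⟩
    refine ⟨ZFSet.mem_prod.2 ⟨i, (mem_Aa.1 h2).1, q, hq, rfl⟩, ?_, ?_, j, hj, h4⟩
    · rw [fst_pair]; exact h2
    · rw [fst_pair]; exact h3

theorem f_M7 (hMG : T_MG) : F_M7 := fun D G β hD hG hβ hl x hx => hMG D hD G hG β hβ hl x hx

end CAA
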