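import Pool.Agent.H7.SF.Lists

/-!
# MP_ceca85_lc: the iterated `C(aa)` sequence. Statement level definitions

`SF.V` is the type of all sets (`ZFSet.{0}`); a class of sets is a predicate `V → Prop`. The
definitions of `SF.cons`, `SF.Ctbl`, `SF.Onto`, `SF.ZFC` are in `Pool/Agent/H45/SF/Stmt.lean`; `nS n`
is the natural number `n` as a set (`Pool/Agent/H9/SF/Bas.lean`) and `lc l` is the code of the finite
sequence `l` as a set (`Pool/Agent/H7/SF/Lists.lean`).
-/

open Ordinal Order Set
open scoped ZFSet

namespace CAA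

open SF

/-- Formulas of stationary logic `L(aa)` in the language of set theory. There are first-order
variables and variables for countable subsets of the domain; both are de Bruijn indices. (The
quantifier `stat s φ` is `¬ aa s ¬ φ`.) -/
inductive AF : Type
  /-- `v i ∈ v j` -/
  | mem (i j : ℕ) : AF
  /-- `v i = v j` -/
  | eq (i j : ℕ) : AF
  /-- `v i` is an element of the countable set `s k` -/
  | ins (i k : ℕ) : AF
  /-- negation -/
  | neg (φ : AF) : AF
  /-- conjunction -/
  | and (φ ψ : AF) : AF
  /-- existential quantifier over the elements of the domain -/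
  | ex (φ : AF) : AF
  /-- the quantifier `aa s` -/
  | aa (φ : AF) : AF

/-- `F` is a sequence `(f_n)` of finitary functions on the set `A`: `f_n` is a function from the
sequences of length `k_n` of elements of `A` to `A`, and `F` is the set of all triples
`(n, l, f_n(l))`. -/
structure FinF (A F : V) : Prop where
  sub : ∀ z ∈ F, ∃ (n : ℕ) (l : List V) (y : V), (∀ p ∈ l, p ∈ A) ∧ y ∈ A ∧
    z = ZFSet.pair (nS n) (ZFSet.pair (lc l) y)
  svl : ∀ (n : ℕ) (l : List V) (y y' : V), ZFSet.pair (nS n) (ZFSet.pair (lc l) y) ∈ F →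
    ZFSet.pair (nS n) (ZFSet.pair (lc l) y') ∈ F → y = y'
  tot : ∀ n : ℕ, ∃ k : ℕ, ∀ l : List V, (∀ p ∈ l, p ∈ A) →
    (l.length = k ↔ ∃ y, ZFSet.pair (nS n) (ZFSet.pair (lc l) y) ∈ F)

/-- the set `z` is closed under all the functions `f_n` -/
def Clo (F z : V) : Prop := ∀ (n : ℕ) (l : List V) (y : V), (∀ p ∈ l, p ∈ z) →
  ZFSet.pair (nS n) (ZFSet.pair (lc l) y) ∈ F → y ∈ z

/-- Satisfaction for `L(aa)` in the structure `(A, ∈)`, as it is computed in the class `N`: the
formula `aa s φ` holds if, for some sequence `F ∈ N` of finitary functions on `A`, the formula `φ`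
holds for all countable (in `N`) subsets `z` of `A` which are closed under `F`, that is, for all
elements of a club of `N`. `v` and `s` are the values of the variables. -/
def AaSat (N : V → Prop) (A : V) : AF → (ℕ → V) → (ℕ → V) → Prop
  | .mem i j, v, _ => v i ∈ v j
  | .eq i j, v, _ => v i = v j
  | .ins i k, v, s => v i ∈ s k
  | .neg φ, v, s => ¬ AaSat N A φ v s
  | .and φ ψ, v, s => AaSat N A φ v s ∧ AaSat N A ψ v s
  | .ex φ, v, s => ∃ x ∈ A, AaSat N A φ (cons x v) s
  | .aa φ, v, s => ∃ F, N F ∧ FinF A F ∧ ∀ z, N z → Ctbl N z → z ⊆ A → Clo F z →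
      AaSat N A φ v (cons z s)

/-- The set of the subsets of `A` which are definable over `(A, ∈)` by `L(aa)`-formulas with
parameters, as computed in `N`. -/
noncomputable def DefA (N : V → Prop) (A : V) : V :=
  (ZFSet.powerset A).sep fun y => ∃ (φ : AF) (l : List V), (∀ p ∈ l, p ∈ A) ∧
    y = A.sep fun z => AaSat N A φ (cons z fun i => l.getD i z) fun _ => ∅

/-- the level `L'_α` of the hierarchy, as computed in `N`: `L'_0` is empty, `L'_(α+1)` is the set
of the definable subsets of `L'_α`, and unions are taken at limits (the hierarchy is increasing) -/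
noncomputable def La (N : V → Prop) (α : Ordinal.{0}) : V :=
  ⋃ β : Set.Iio α, DefA N (La N β.1)
termination_by α
decreasing_by exact β.2

/-- the class `C(aa)`, as computed in `N` -/
def CA (N : V → Prop) (x : V) : Prop := ∃ α : Ordinal.{0}, N α.toZFSet ∧ x ∈ La N α

/-- the iterated `C(aa)` sequence, starting with the class `W` -/
noncomputable def It (W : V → Prop) (α : Ordinal.{0}) : V → Prop :=
  Ordinal.limitRecOn α W (fun _ N => CA N) fun γ _ f x => ∀ β (h : β < γ), f β h x

theorem It_zero (W : V → Prop) : It W 0 = W := by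
  unfold It
  exact Ordinal.limitRecOn_zero _ _ _

theorem It_succ (W : V → Prop) (α : Ordinal.{0}) : It W (succ α) = CA (It W α) := by
  unfold It
  exact Ordinal.limitRecOn_succ _ _ _ _

theorem It_limit (W : V → Prop) {γ : Ordinal.{0}} (h : IsSuccLimit γ) :
    It W γ = fun x => ∀ β < γ, It W β x := by
  unfold It
  rw [Ordinal.limitRecOn_limit _ _ _ _ h]

/-- The main statement: there is a countable transitive model `W` of `ZFC` such that the iterated
`C(aa)` sequence of `W` is strictly decreasing at all ordinal stages; all its members are transitive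
models of `ZFC`. -/
def Goal : Prop :=
  ∃ W : V, (W : Set V).Countable ∧ ZFC (· ∈ W) ∧
    ∀ α : Ordinal.{0}, α.toZFSet ∈ W → ZFC (It (· ∈ W) α) ∧
      (∀ x, It (· ∈ W) (succ α) x → It (· ∈ W) α x) ∧
      ∃ x, It (· ∈ W) α x ∧ ¬ It (· ∈ W) (succ α) x

end CAA
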