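import Pool.Agent.H9.CA.Tool

/-!
# The ground model, the sequences, the forcing notion: definitions

`𝕄 = L_θ` is the class `(· ∈ LA ∅ θ)`. -/

set_option linter.unusedVariables false

open Ordinal Order Set
open scoped ZFSet

namespace CAA

open SF

/-! ## The ground model -/

/-- Ground model `L_θ`: `κ` is the least inaccessible of `L_θ`, `χ` the least ordinal which is not an
image of `L_κ` in `L_θ`. -/
structure Grd (κ χ θ : Ordinal.{0}) : Prop where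
  ctb : ((LA ∅ θ : V) : Set V).Countable
  zfc : ZFCm (· ∈ LA ∅ θ)
  ord : ∀ α : Ordinal.{0}, α.toZFSet ∈ LA ∅ θ ↔ α < θ
  lim : IsSuccLimit θ
  κχ : κ < χ
  χθ : χ < θ
  inac : Inac (· ∈ LA ∅ θ) κ
  vk : IsVk (· ∈ LA ∅ θ) κ (LA ∅ κ)
  zκ : ZFm (· ∈ LA ∅ κ)
  zχ : ZFm (· ∈ LA ∅ χ)
  unbκ : ∀ ρ < κ, ∃ ρ', ρ < ρ' ∧ ρ' < κ ∧ ZFm (· ∈ LA ∅ ρ')
  unbθ : ∀ ρ < θ, ∃ ρ', ρ < ρ' ∧ ρ' < θ ∧ ZFm (· ∈ LA ∅ ρ')
  regκ : ∀ y ∈ LA ∅ κ, ∀ f ∈ LA ∅ θ, ZFSet.IsFunc y κ.toZFSet f →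
    ∃ γ < κ, ∀ u ∈ y, app f u ∈ γ.toZFSet
  regχ : ∀ y ∈ LA ∅ χ, ∀ f ∈ LA ∅ θ, ZFSet.IsFunc y χ.toZFSet f →
    ∃ γ < χ, ∀ u ∈ y, app f u ∈ γ.toZFSet
  subκ : ∀ y ∈ LA ∅ κ, ∀ x ∈ LA ∅ θ, x ⊆ y → x ∈ LA ∅ κ
  subχ : ∀ y ∈ LA ∅ χ, ∀ x ∈ LA ∅ θ, x ⊆ y → x ∈ LA ∅ χ
  powκ : ∀ y ∈ LA ∅ κ, ∃ ρ < κ, ∀ x ∈ LA ∅ θ, x ⊆ y → x ∈ LA ∅ ρ
  least : ∀ β < κ, ω < β →
    (∀ l < β, ∀ f ∈ LA ∅ θ, ZFSet.IsFunc l.toZFSet β.toZFSet f →
      ∃ γ < β, ∀ ξ < l, app f ξ.toZFSet ∈ γ.toZFSet) →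
    ∃ l < β, ∀ τ < β, ∀ f ∈ LA ∅ θ, ∃ x ∈ LA ∅ θ, x ⊆ l.toZFSet ∧ ∀ ξ < τ, app f ξ.toZFSet ≠ x

/-- The sizes: `L_{γ i}` and `μ i`, `i < κ`. -/
structure Sz (κ χ θ : Ordinal.{0}) (γ μ : Ordinal.{0} → Ordinal.{0}) (ga mu : V) : Prop where
  γκ : ∀ i < κ, γ i < κ
  μκ : ∀ i < κ, μ i < κ
  iγ : ∀ i < κ, i < γ i
  γμ : ∀ i < κ, γ i < μ i
  μγ : ∀ i j, i < j → j < κ → μ i < γ j
  zγ : ∀ i < κ, ZFm (· ∈ LA ∅ (γ i))
  sm : ∀ i < κ, ∀ δ < μ i, Sm (· ∈ LA ∅ θ) (LA ∅ (γ i)) δ.toZFSet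
  ns : ∀ i < κ, ¬ Sm (· ∈ LA ∅ θ) (LA ∅ (γ i)) (μ i).toZFSet
  /-- the subsets of `i` are in `L_{γ i}` -/
  pow1 : ∀ i < κ, ∀ x ∈ LA ∅ θ, x ⊆ i.toZFSet → x ∈ LA ∅ (γ i)
  /-- the sets of pairs `(k, q)` with `k < i`, `q ⊆ μ k`, are in `L_{γ i}` -/
  pow2 : ∀ i < κ, ∀ x ∈ LA ∅ θ, (∀ z ∈ x, ∃ k < i, ∃ q ∈ LA ∅ θ, q ⊆ (μ k).toZFSet ∧
    z = ZFSet.pair k.toZFSet q) → x ∈ LA ∅ (γ i)
  gaM : ga ∈ LA ∅ χ
  muM : mu ∈ LA ∅ χ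
  gaA : ∀ i < κ, app ga i.toZFSet = (γ i).toZFSet
  muA : ∀ i < κ, app mu i.toZFSet = (μ i).toZFSet

/-! ## The stationary sets -/

/-- `L_ρ` has no surjection from `L_γ` onto `δ` -/
def NS (γ δ ρ : Ordinal.{0}) : Prop := ∀ f ∈ LA ∅ ρ, ¬ Onto f (LA ∅ γ) δ.toZFSet

/-- `δ` belongs to the stationary set for `γ` -/
structure InE (κ γ δ : Ordinal.{0}) : Prop where
  gt : γ < δ
  cof : ∃ f ∈ LA ∅ κ, ZFSet.IsFunc om δ.toZFSet f ∧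
    ∀ ξ < δ, ∃ n : ℕ, ξ.toZFSet ∈ app f (nS n)
  ex : ∃ ρ, δ < ρ ∧ ρ < κ ∧ ZFm (· ∈ LA ∅ ρ) ∧ NS γ δ ρ
  nl : ∀ ρ, δ < ρ → ρ < κ → ZFm (· ∈ LA ∅ ρ) → NS γ δ ρ →
    ∃ ρ', ρ < ρ' ∧ ρ' < κ ∧ ZFm (· ∈ LA ∅ ρ') ∧ NS γ δ ρ'

/-- `C` is a club subset of `μ` -/
structure IsClub (μ : Ordinal.{0}) (C : V) : Prop where
  sub : C ⊆ μ.toZFSet
  unb : ∀ ξ < μ, ∃ η, ξ < η ∧ η.toZFSet ∈ C
  cl : ∀ δ < μ, δ ≠ 0 → (∀ ξ < δ, ∃ η, ξ < η ∧ η < δ ∧ η.toZFSet ∈ C) → δ.toZFSet ∈ C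

/-! ## The forcing notion -/

/-- `q` is a closed bounded subset of the ordinal `m`, disjoint from `e` -/
structure IsQ (m e q : V) : Prop where
  sub : q ⊆ m
  mx : q = ∅ ∨ ∃ d ∈ q, ∀ x ∈ q, x ∈ d ∨ x = d
  cl : ∀ d ∈ m, d ≠ ∅ → (∀ x ∈ d, ∃ y ∈ q, x ∈ y ∧ y ∈ d) → d ∈ q
  dj : ∀ x ∈ q, x ∉ e

/-- `q'` is an end-extension of `q` -/
def Ee (q' q : V) : Prop := q ⊆ q' ∧ ∀ x ∈ q', ∀ y ∈ q, x ∈ y → x ∈ q

/-- conditions: functions with domain a subset of `κ`, elements of `L_κ`; `app p k = ∅` for `k`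
outside of the domain -/
structure IsCd (κ : Ordinal.{0}) (mu Ef p : V) : Prop where
  lk : p ∈ LA ∅ κ
  pr : ∀ z ∈ p, ∃ k < κ, ∃ q, z = ZFSet.pair k.toZFSet q
  svl : Svl p
  q : ∀ k < κ, IsQ (app mu k.toZFSet) (app Ef k.toZFSet) (app p k.toZFSet)

/-- the data of the construction -/
structure Dat where
  /-- the inaccessible -/
  κ : Ordinal.{0}
  /-- its successor -/
  χ : Ordinal.{0}
  /-- the height of the ground model -/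
  θ : Ordinal.{0}
  /-- sizes -/
  γ : Ordinal.{0} → Ordinal.{0}
  /-- the regular ordinals -/
  μ : Ordinal.{0} → Ordinal.{0}
  /-- the function `γ` as a set -/
  ga : V
  /-- the function `μ` as a set -/
  mu : V
  /-- the stationary sets -/
  Ef : V
  /-- bookkeeping -/
  tf : V
  /-- conditions -/
  c : V
  /-- order -/
  r : V

/-- the ground model -/
def Dat.M (D : Dat) : V → Prop := fun x => x ∈ LA ∅ D.θ

/-- the properties of the data -/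
structure Dat.Ok (D : Dat) : Prop where
  grd : Grd D.κ D.χ D.θ
  sz : Sz D.κ D.χ D.θ D.γ D.μ D.ga D.mu
  eM : D.Ef ∈ LA ∅ D.χ
  eA : ∀ i < D.κ, ∀ x, x ∈ app D.Ef i.toZFSet ↔
    ∃ δ < D.μ i, x = δ.toZFSet ∧ InE D.κ (D.γ i) δ
  tM : D.tf ∈ LA ∅ D.χ
  tA : ∀ i < D.κ, ∃ b ≤ i, ∃ y ∈ LA ∅ D.κ, app D.tf i.toZFSet = ZFSet.pair b.toZFSet y
  tB : ∀ l < D.κ, ∀ b < D.κ, ∀ y ∈ LA ∅ D.κ,
    ∃ i, l ≤ i ∧ i < D.κ ∧ app D.tf i.toZFSet = ZFSet.pair b.toZFSet y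
  cM : D.c ∈ LA ∅ D.χ
  cA : ∀ p, p ∈ D.c ↔ IsCd D.κ D.mu D.Ef p
  rM : D.r ∈ LA ∅ D.χ
  rA : ∀ z, z ∈ D.r ↔ ∃ p ∈ D.c, ∃ q ∈ D.c, z = ZFSet.pair p q ∧
    ∀ k < D.κ, Ee (app p k.toZFSet) (app q k.toZFSet)

/-- `u` below `i`, `v` from `i` on -/
noncomputable def cat (i : V) (u v : V) : V :=
  (u.sep fun z => fst z ∈ i) ∪ v.sep fun z => fst z ∉ i

/-! ## Coding -/

/-- all pairs `(k, p(k))`, `k ∈ κ`, `p ∈ G` -/
noncomputable def Xs (κ G : V) : V :=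
  imS (ZFSet.prod κ G) fun z => ZFSet.pair (fst z) (app (snd z) (fst z))

/-- the conditions `p` with `(k, p(k)) ∈ X` for all but finitely many `k ∈ κ` -/
noncomputable def Hs (κ c X : V) : V := c.sep fun p => ∃ l : List V, (∀ x ∈ l, x ∈ κ) ∧
  ∀ k ∈ κ, k ∉ l → ZFSet.pair k (app p k) ∈ X

/-- activity of a node `i`, with the bookkeeping function `t` and the data `X`, `H`: the values of
the bookkeeping function are `(b, ∅)`, `(b, (1, (j, q)))` or `(b, (2, p))`, where `b` is the level of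
the node -/
inductive Ac (t X H : V) : V → Prop
  | z (i : V) : snd (app t i) = ∅ → Ac t X H i
  | s (i j q : V) : snd (app t i) = ZFSet.pair (nS 1) (ZFSet.pair j q) → j ∈ i →
      fst (app t i) ∈ fst (app t j) → Ac t X H j → ZFSet.pair j q ∈ X → Ac t X H i
  | h (i p : V) : snd (app t i) = ZFSet.pair (nS 2) p → p ∈ H → Ac t X H i

/-- the active nodes of level `≥ b` -/
noncomputable def As (κ t X H b : V) : V := κ.sep fun i => Ac t X H i ∧ b ⊆ fst (app t i)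

/-- the generic objects at the active nodes of level `≥ b` -/
noncomputable def aS (κ t X H b : V) : V :=
  X.sep fun z => IsPr z ∧ fst z ∈ As κ t X H b

/-- the data of a filter `G` -/
noncomputable def Dat.X (D : Dat) (G : V) : V := Xs D.κ.toZFSet G

/-- the finite-modification class of a filter `G` -/
noncomputable def Dat.H (D : Dat) (G : V) : V := Hs D.κ.toZFSet D.c (D.X G)

/-- the active nodes of level `≥ β` -/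
noncomputable def Dat.A (D : Dat) (G : V) (β : Ordinal.{0}) : V :=
  As D.κ.toZFSet D.tf (D.X G) (D.H G) β.toZFSet

/-- the generic objects at the active nodes of level `≥ β` -/
noncomputable def Dat.a (D : Dat) (G : V) (β : Ordinal.{0}) : V :=
  aS D.κ.toZFSet D.tf (D.X G) (D.H G) β.toZFSet

/-- the model `B_β` -/
noncomputable def Dat.B (D : Dat) (G : V) (β : Ordinal.{0}) : V := LA (D.a G β) D.θ

/-- the model `N_β` -/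
noncomputable def Dat.N (D : Dat) (G : V) (β : Ordinal.{0}) : V :=
  (D.B G β).sep fun x => x.rank < D.κ

/-- the set `{q : (k, q) ∈ X}` -/
noncomputable def fib (X k : V) : V := (rg X).sep fun q => ZFSet.pair k q ∈ X

/-- the restriction of the condition `p` to `S` -/
noncomputable def rst (S p : V) : V := p.sep fun z => fst z ∈ S

/-- the quotient forcing: the restrictions of the elements of `H` to `S` -/
noncomputable def Qs (S H : V) : V := imS H fun p => rst S p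

/-- the order of the quotient forcing -/
noncomputable def Qr (κ S H : V) : V := (ZFSet.prod (Qs S H) (Qs S H)).sep fun z =>
  ∀ k ∈ κ, Ee (app (fst z) k) (app (snd z) k)

end CAA
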