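import Pool.Agent.H9.CA.Sys

/-!
# Parts G, S, H: ground model, stationary sets, chains. Targets -/

set_option linter.unusedVariables false

open Ordinal Order Set
open scoped ZFSet

namespace CAA

open SF

/-! ## Part G: the ground model -/

/-- U: there is a suitable countable level. (It comes from universe 1.) -/
def T_U : Prop := ∃ κ χ θ : Ordinal.{0}, ((LA ∅ θ : V) : Set V).Countable ∧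
  ZFCm (· ∈ LA ∅ θ) ∧ (∀ α : Ordinal.{0}, α.toZFSet ∈ LA ∅ θ ↔ α < θ) ∧ IsSuccLimit θ ∧
  (∀ ρ < θ, ∃ ρ', ρ < ρ' ∧ ρ' < θ ∧ ZFm (· ∈ LA ∅ ρ')) ∧ κ < χ ∧ χ < θ ∧
  Inac (· ∈ LA ∅ θ) κ ∧ ∀ f ∈ LA ∅ θ, ¬ Onto f (LA ∅ κ) χ.toZFSet

/-- GB: sizes of levels -/
def T_GB : Prop := ∀ (M : V → Prop), ZFCm M → ∀ C, M C → Gd C → ∀ δ : Ordinal.{0},
  M δ.toZFSet → Sm M C δ.toZFSet → Sm M C (LA ∅ δ)

/-- GA: the ground model -/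
def T_GA : Prop := T_U → ∃ κ χ θ, Grd κ χ θ

/-- GC: the levels `L_γ`, `γ > ω` a limit, are good -/
def T_GC : Prop := ∀ γ : Ordinal.{0}, IsSuccLimit γ → ω < γ → Gd (LA ∅ γ)

/-- GD: the sizes -/
def T_GD : Prop := ∀ κ χ θ, Grd κ χ θ → ∃ γ μ ga mu, Sz κ χ θ γ μ ga mu

/-- GE: the stationary sets as a set -/
def T_GE : Prop := ∀ κ χ θ γ μ ga mu, Grd κ χ θ → Sz κ χ θ γ μ ga mu →
  ∃ Ef ∈ LA ∅ χ, ∀ i < κ, ∀ x, x ∈ app Ef i.toZFSet ↔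
    ∃ δ < μ i, x = δ.toZFSet ∧ InE κ (γ i) δ

/-- GF: bookkeeping -/
def T_GF : Prop := ∀ κ χ θ, Grd κ χ θ → ∃ tf ∈ LA ∅ χ,
  (∀ i < κ, ∃ b ≤ i, ∃ y ∈ LA ∅ κ, app tf i.toZFSet = ZFSet.pair b.toZFSet y) ∧
  ∀ l < κ, ∀ b < κ, ∀ y ∈ LA ∅ κ,
    ∃ i, l ≤ i ∧ i < κ ∧ app tf i.toZFSet = ZFSet.pair b.toZFSet y

/-- GG: the data exist -/
def T_GG : Prop := ∀ κ χ θ, Grd κ χ θ → ∃ D : Dat, D.Ok

/-- GH: more on sizes in the ground model: `L_{γ i}` is good, `μ i` is regular with respect to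
`L_{γ i}`, surjections onto ordinals below `μ i` are subsets of `L_{μ i}`, powers -/
def T_GH : Prop := ∀ D : Dat, D.Ok → (∀ i < D.κ, Gd (LA ∅ (D.γ i)) ∧ D.M (LA ∅ (D.γ i)) ∧
    IsSuccLimit (D.μ i) ∧
    (∀ x, D.M x → Sm D.M (LA ∅ (D.γ i)) x → x ⊆ (D.μ i).toZFSet →
      ∃ η < D.μ i, x ⊆ η.toZFSet) ∧
    ∃ ρ < D.κ, ∀ x ∈ LA ∅ D.θ, x ⊆ LA ∅ (D.μ i) → x ∈ LA ∅ ρ) ∧
  (∀ z, IsSuccLimit z → ZFm (· ∈ LA ∅ z) → ZFCm (· ∈ LA ∅ z)) ∧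
  ∀ z, ZFm (· ∈ LA ∅ z) → ω < z ∧ IsSuccLimit z ∧
    ∀ α : Ordinal.{0}, α.toZFSet ∈ LA ∅ z ↔ α < z

/-! ## Part S: stationarity -/

/-- the sequence `t` consists of consecutive heights of levels which are models of `ZFm` -/
def Cz (t : ℕ → Ordinal.{0}) : Prop := ∀ n, ZFm (· ∈ LA ∅ (t n)) ∧ t n < t (n + 1) ∧
  ∀ ρ, t n < ρ → ρ < t (n + 1) → ¬ ZFm (· ∈ LA ∅ ρ)

/-- SB: such sequences belong to all higher levels which are models of `ZFm` -/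
def T_SB : Prop := ∀ (z : Ordinal.{0}) (t : ℕ → Ordinal.{0}), ZFm (· ∈ LA ∅ z) → Cz t →
  (∀ n, t n < z) → ∃ s ∈ LA ∅ z, Svl s ∧ dm s = om ∧ ∀ n, app s (nS n) = (t n).toZFSet

/-- the hull with index `n` -/
noncomputable def Xh (g m C s n : V) : V :=
  Dcl (LAS ∅ (app s n)) (LAS ∅ g ∪ {g, m, C} ∪ imS n fun l => app s l)

/-- the union of the hulls for a club `C ⊆ μ i` -/
structure Lad (D : Dat) (i : Ordinal.{0}) (C : V) (t : ℕ → Ordinal.{0}) (s X : V)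
    (δ : Ordinal.{0}) : Prop where
  iκ : i < D.κ
  sub : C ⊆ (D.μ i).toZFSet
  cz : Cz t
  tκ : ∀ n, t n < D.κ
  ts : ∀ n, app s (nS n) = (t n).toZFSet
  sM : s ∈ LA ∅ D.κ
  pw : ∀ x ∈ LA ∅ D.θ, x ⊆ LA ∅ (D.μ i) → x ∈ LA ∅ (t 0)
  Xe : ∀ x, x ∈ X ↔ ∃ n : ℕ, x ∈ Xh (D.γ i).toZFSet (D.μ i).toZFSet C s (nS n)
  δμ : δ < D.μ i
  γδ : D.γ i < δ
  Xμ : ∀ ξ < D.μ i, ξ.toZFSet ∈ X ↔ ξ < δ
  gX : LA ∅ (D.γ i) ⊆ X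
  mX : (D.μ i).toZFSet ∈ X
  cX : C ∈ X
  tX : ∀ n, (t n).toZFSet ∈ X
  el : ∀ n, ElSub (X ∩ LA ∅ (t n)) (LA ∅ (t n))
  mono : ∀ n, Xh (D.γ i).toZFSet (D.μ i).toZFSet C s (nS n) ⊆
    Xh (D.γ i).toZFSet (D.μ i).toZFSet C s (nS (n + 1))
  bd : ∀ n, ∃ η < δ, ∀ ξ < D.μ i,
    ξ.toZFSet ∈ Xh (D.γ i).toZFSet (D.μ i).toZFSet C s (nS n) → ξ < η
  XM : X ∈ LA ∅ D.κ
  Xs : Sm D.M (LA ∅ (D.γ i)) X

/-- SC: existence of such a hull -/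
def T_SC : Prop := ∀ D : Dat, D.Ok → ∀ i < D.κ, ∀ C ∈ LA ∅ D.θ, IsClub (D.μ i) C →
  ∃ t s X δ, Lad D i C t s X δ ∧ δ.toZFSet ∈ C

/-- SD: the collapses -/
def T_SD : Prop := ∀ D : Dat, D.Ok → ∀ i C t s X δ, Lad D i C t s X δ →
  ∃ (tb : ℕ → Ordinal.{0}) (f : ℕ → V), Cz tb ∧ ∀ n, tb n ≤ t n ∧ δ < tb n ∧
    IsElem (LA ∅ (tb n)) (LA ∅ (t n)) (f n) ∧
    (∀ y, y ∈ X ∩ LA ∅ (t n) ↔ ∃ u ∈ LA ∅ (tb n), app (f n) u = y) ∧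
    (∀ u ∈ LA ∅ (D.γ i), u ∈ LA ∅ (tb n) ∧ app (f n) u = u) ∧
    (∀ ξ < δ, app (f n) ξ.toZFSet = ξ.toZFSet) ∧ app (f n) δ.toZFSet = (D.μ i).toZFSet ∧
    C ∩ δ.toZFSet ∈ LA ∅ (tb n) ∧ app (f n) (C ∩ δ.toZFSet) = C ∧
    ∀ m < n, app (f n) (tb m).toZFSet = (t m).toZFSet

/-- SE: `δ` has no surjection from `L_γ` in the collapsed levels, and has one above them -/
def T_SE : Prop := ∀ D : Dat, D.Ok → ∀ i C t s X δ, Lad D i C t s X δ →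
  ∃ tb : ℕ → Ordinal.{0}, Cz tb ∧ (∀ n, δ < tb n ∧ tb n < D.κ ∧ NS (D.γ i) δ (tb n)) ∧
    ∀ z, ZFm (· ∈ LA ∅ z) → (∀ n, tb n < z) → ¬ NS (D.γ i) δ z

/-- SA: the sets are stationary -/
def T_SA : Prop := ∀ D : Dat, D.Ok → ∀ i < D.κ, ∀ C ∈ LA ∅ D.θ, IsClub (D.μ i) C →
  ∃ δ < D.μ i, δ.toZFSet ∈ C ∧ InE D.κ (D.γ i) δ

/-! ## Part H: chains of elementary submodels -/

/-- the chain: `H_x` is the definable closure of `a`, of the `H_l` and of the sequences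
`(H_l')_{l' ≤ l}`, `l < x` -/
noncomputable def Hc (N a x : V) : V :=
  Dcl N ({a} ∪ (⋃₀ (ZFSet.range fun l : {l // l ∈ x} => Hc N a l.1) : ZFSet) ∪
    ZFSet.range fun l : {l // l ∈ x} =>
      ZFSet.range fun l' : {l' // l' ∈ insert l.1 l.1} => ZFSet.pair l'.1 (Hc N a l'.1))
termination_by x.rank
decreasing_by
  · exact ZFSet.rank_lt_of_mem l.2
  · rcases ZFSet.mem_insert_iff.1 l'.2 with h | h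
    · rw [h]
      exact ZFSet.rank_lt_of_mem l.2
    · exact lt_trans (ZFSet.rank_lt_of_mem h) (ZFSet.rank_lt_of_mem l.2)

/-- HA: recursion equation and definability -/
def T_HA : Prop :=
  (∀ N a x, Hc N a x = Dcl N ({a} ∪ (⋃₀ (imS x fun l => Hc N a l) : ZFSet) ∪
    imS x fun l => resS (insert l l) fun l' => Hc N a l')) ∧
  Tm ZFm (fun _ v => Hc (v 0) (v 1) (v 2))

/-- HB: properties of the chain in `L_χ` -/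
def T_HB : Prop := ∀ D : Dat, D.Ok → ∀ i < D.κ, ∀ ρ < D.μ i, ∀ a ∈ LA ∅ D.χ,
  ∀ m ≤ ρ, Hc (LA ∅ D.χ) a m.toZFSet ∈ LA ∅ D.χ ∧ Hc (LA ∅ D.χ) a m.toZFSet ⊆ LA ∅ D.χ ∧
    Sm D.M (LA ∅ (D.γ i)) (Hc (LA ∅ D.χ) a m.toZFSet) ∧
    ElSub (Hc (LA ∅ D.χ) a m.toZFSet) (LA ∅ D.χ) ∧ a ∈ Hc (LA ∅ D.χ) a m.toZFSet ∧
    (∀ l < m, Hc (LA ∅ D.χ) a l.toZFSet ⊆ Hc (LA ∅ D.χ) a m.toZFSet ∧
      (resS (succ l).toZFSet fun x => Hc (LA ∅ D.χ) a x) ∈ Hc (LA ∅ D.χ) a m.toZFSet) ∧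
    (IsSuccLimit m → ∀ x ∈ Hc (LA ∅ D.χ) a m.toZFSet, ∃ l < m, x ∈ Hc (LA ∅ D.χ) a l.toZFSet)

/-- the parameter `a` codes the data: `a = (a', (κ, (ga, (mu, ρ))))` -/
noncomputable def par (D : Dat) (a' : V) (ρ : Ordinal.{0}) : V :=
  ZFSet.pair a' (ZFSet.pair D.κ.toZFSet (ZFSet.pair D.ga (ZFSet.pair D.mu ρ.toZFSet)))

/-- HD: the hull of `H_m ∪ L_{γ k}` below `μ k` -/
def T_HD : Prop := ∀ D : Dat, D.Ok → ∀ i < D.κ, ∀ ρ < D.μ i, ∀ a' ∈ LA ∅ D.χ, ∀ m ≤ ρ,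
  IsSuccLimit m → ∀ k, i ≤ k → k < D.κ → ∀ δ < D.μ k,
  (∀ ξ < δ, ∃ f ∈ Hc (LA ∅ D.χ) (par D a' ρ) m.toZFSet, ∃ η < D.μ k,
    app f k.toZFSet = η.toZFSet ∧ ξ < η) →
  (∀ f ∈ Hc (LA ∅ D.χ) (par D a' ρ) m.toZFSet, ∀ η < D.μ k,
    app f k.toZFSet = η.toZFSet → η < δ) →
  ∀ ξ < D.μ k, ξ.toZFSet ∈
    Dcl (LA ∅ D.χ) (Hc (LA ∅ D.χ) (par D a' ρ) m.toZFSet ∪ LA ∅ (D.γ k)) ↔ ξ < δ

/-- HE: the chain and elementary maps -/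
def T_HE : Prop := ∀ (N' N f a : V) (m : Ordinal.{0}), IsElem N' N f → N'.IsTransitive →
  N.IsTransitive → ZFm (· ∈ N') → ZFm (· ∈ N) → a ∈ N' →
  (∀ u ∈ N', ∀ y, y ∈ u ↔ y ∈ N' ∧ app f y ∈ app f u) →
  (∀ l < m, l.toZFSet ∈ N' ∧ app f l.toZFSet = l.toZFSet ∧
    (∀ y ∈ Hc N (app f a) l.toZFSet, ∃ u ∈ N', app f u = y) ∧
    ∃ u ∈ N', app f u = resS (succ l).toZFSet fun x => Hc N (app f a) x) →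
  ∀ l < m, (∀ y, y ∈ Hc N (app f a) l.toZFSet ↔ ∃ u ∈ Hc N' a l.toZFSet, app f u = y) ∧
    (resS (succ l).toZFSet fun x => Hc N' a x) ∈ N' ∧
    app f (resS (succ l).toZFSet fun x => Hc N' a x) =
      resS (succ l).toZFSet fun x => Hc N (app f a) x

/-- HF: the suprema at limit steps are not in the stationary sets -/
def T_HF : Prop := ∀ D : Dat, D.Ok → ∀ i < D.κ, ∀ ρ < D.μ i, ∀ a' ∈ LA ∅ D.χ, ∀ m ≤ ρ,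
  IsSuccLimit m → ∀ k, i ≤ k → k < D.κ → ∀ δ < D.μ k,
  (∀ ξ < δ, ∃ f ∈ Hc (LA ∅ D.χ) (par D a' ρ) m.toZFSet, ∃ η < D.μ k,
    app f k.toZFSet = η.toZFSet ∧ ξ < η) →
  (∀ f ∈ Hc (LA ∅ D.χ) (par D a' ρ) m.toZFSet, ∀ η < D.μ k,
    app f k.toZFSet = η.toZFSet → η < δ) →
  ¬ InE D.κ (D.γ k) δ

/-- a chain of length `ρ + 1` -/
structure Chn (D : Dat) (i ρ : Ordinal.{0}) (a : V) (H : Ordinal.{0} → V) : Prop where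
  a0 : a ∈ H 0
  ρ0 : ρ.toZFSet ∈ H 0
  mem : ∀ m ≤ ρ, H m ∈ LA ∅ D.χ ∧ H m ⊆ LA ∅ D.χ
  cl : ∀ m ≤ ρ, ∀ F : (V → Prop) → (ℕ → V) → V, Tm ZFm F →
    ∀ v : ℕ → V, (∀ j, v j ∈ H m) → F (· ∈ LA ∅ D.χ) v ∈ H m
  mono : ∀ l m, l ≤ m → m ≤ ρ → H l ⊆ H m
  seq : ∀ l m, l < m → m ≤ ρ → (resS (succ l).toZFSet fun x => H x.rank) ∈ H m
  lim : ∀ m ≤ ρ, IsSuccLimit m → ∀ x ∈ H m, ∃ l < m, x ∈ H l
  sm : ∀ m ≤ ρ, Sm D.M (LA ∅ (D.γ i)) (H m)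
  key : ∀ m ≤ ρ, IsSuccLimit m → ∀ k, i ≤ k → k < D.κ → ∀ δ < D.μ k,
    (∀ ξ < δ, ∃ f ∈ H m, ∃ η < D.μ k, app f k.toZFSet = η.toZFSet ∧ ξ < η) →
    (∀ f ∈ H m, ∀ η < D.μ k, app f k.toZFSet = η.toZFSet → η < δ) → ¬ InE D.κ (D.γ k) δ

/-- HG: chains exist -/
def T_HG : Prop := ∀ D : Dat, D.Ok → ∀ i < D.κ, ∀ ρ < D.μ i, ∀ a ∈ LA ∅ D.χ,
  ∃ H : Ordinal.{0} → V, Chn D i ρ a H

end CAA
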