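import Pool.Agent.H9.CA.Stmt
import Pool.Agent.H68.SF.LT4
import Pool.Agent.H7.SF.ElemS
import Pool.Agent.H9.SF.FD2

/-!
# Part D: general tools (definable closures, hulls, inaccessibles, forcing). Definitions and targets

Everything is at universe 0, `V = ZFSet.{0}`. Proved library facts: `Pool/Agent/H68/SF/LAll.lean`
(`SF.aLHT`, `SF.aLDX`, `SF.aFG`, ...). -/

set_option linter.unusedVariables false

open Ordinal Order Set
open scoped ZFSet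

namespace CAA

open SF

/-! ## Uniform enumeration of the levels, definable closure -/

/-- `ix A e` is a uniformly definable enumeration of the sets constructible from `A`; the indices
are pairs of ordinals. -/
def IsIx (ix : V → V → V) : Prop :=
  Tm ZFm (fun _ v => ix (v 0) (v 1)) ∧
  ∀ (M : V → Prop), ZFm M → ∀ A, M A → ∀ x, (∃ ρ : Ordinal.{0}, M ρ.toZFSet ∧ x ∈ LA A ρ) →
    ∃ ρ ξ : Ordinal.{0}, M ρ.toZFSet ∧ M ξ.toZFSet ∧
      ix A (ZFSet.pair ρ.toZFSet ξ.toZFSet) = x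

/-- DA -/
def T_DA : Prop := ∃ ix, IsIx ix

/-- the definable closure of `Y` in the structure `(N, ∈)` -/
noncomputable def Dcl (N Y : V) : V := N.sep fun z => ∃ (φ : Fml) (l : List V),
  (∀ p ∈ l, p ∈ Y ∧ p ∈ N) ∧ ∀ x ∈ N, (Sat (· ∈ N) φ (cons x fun i => l.getD i x) ↔ x = z)

/-- DB: the definable closure is uniformly definable -/
def T_DB : Prop := Tm ZFm (fun _ v => Dcl (v 0) (v 1))

/-- DC: the definable closure of a set of parameters (which contains the predicate) in a level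
which is a model of `ZFm` is the least elementary submodel that contains the parameters -/
def T_DC : Prop := ∀ (N A : V) (τ : Ordinal.{0}), ZFm (· ∈ N) → A ∈ N → N = LA A τ →
  ∀ Y, Y ⊆ N → (A = ∅ ∨ A ∈ Y) →
    ElSub (Dcl N Y) N ∧ (Dcl N Y).Nonempty ∧ Y ⊆ Dcl N Y ∧
    ∀ X, ElSub X N → X.Nonempty → Y ⊆ X → Dcl N Y ⊆ X

/-- DD: elementary maps commute with the definable closure -/
def T_DD : Prop := ∀ N' N f : V, IsElem N' N f → N'.Nonempty → ∀ Y' Y : V, Y' ⊆ N' →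
  (∀ y, y ∈ Y ↔ ∃ u ∈ Y', app f u = y) →
  ∀ y, y ∈ Dcl N Y ↔ ∃ u ∈ Dcl N' Y', app f u = y

/-- DE: closure of elementary submodels under definable functions; unions of chains -/
def T_DE : Prop :=
  (∀ N X : V, ElSub X N → ZFm (· ∈ N) → ∀ F : (V → Prop) → (ℕ → V) → V, Tm ZFm F →
    ∀ v : ℕ → V, (∀ i, v i ∈ X) → F (· ∈ N) v ∈ X) ∧
  (∀ N S : V, S.Nonempty → (∀ X ∈ S, ElSub X N) → (∀ X ∈ S, ∀ Y ∈ S, X ⊆ Y ∨ Y ⊆ X) →
    ElSub (⋃₀ S : ZFSet) N)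

/-! ## Sizes -/

/-- `x` is empty or the image of `C` under a function of `M` -/
def Sm (M : V → Prop) (C x : V) : Prop := x = ∅ ∨ ∃ f, M f ∧ Onto f C x

/-- good sets: transitive, closed under pairs, containing `ω` -/
structure Gd (C : V) : Prop where
  tr : C.IsTransitive
  om : om ∈ C
  pr : ∀ x ∈ C, ∀ y ∈ C, ZFSet.pair x y ∈ C

/-- DF: sizes -/
def T_DF : Prop := ∀ (M : V → Prop), ZFm M → ∀ C, M C → Gd C →
  (∀ x ∈ C, Sm M C x) ∧ (∀ x, M x → x ⊆ C → Sm M C x) ∧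
  (∀ x y, M x → Sm M C y → x ⊆ y → Sm M C x) ∧
  (∀ x y, Sm M C x → Sm M C y → Sm M C (ZFSet.prod x y)) ∧
  (∀ x y, Sm M C x → Sm M C y → Sm M C (x ∪ y)) ∧
  (∀ x, Sm M C x → Sm M C (Lw x)) ∧
  (∀ x f, Sm M C x → M f → Svl f → dm f = x → Sm M C (rg f)) ∧
  (∀ N Y, M N → M Y → Sm M C Y → Sm M C (Dcl N Y)) ∧
  (∀ C', M C' → C ⊆ C' → ∀ x, Sm M C x → Sm M C' x) ∧
  Dfb ZFm (fun M v => Sm M (v 0) (v 1))

/-- DG: sizes of unions, with choice -/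
def T_DG : Prop := ∀ (M : V → Prop), ZFCm M → ∀ C, M C → Gd C → ∀ s, M s → Sm M C s →
  (∀ x ∈ s, Sm M C x) → Sm M C (⋃₀ s : ZFSet)

/-- DH: if `μ` is the least ordinal which is not an image of `C`, then functions from `C` to `μ`
are bounded -/
def T_DH : Prop := ∀ (M : V → Prop), ZFCm M → ∀ C, M C → Gd C → ∀ μ : Ordinal.{0}, M μ.toZFSet →
  (∀ δ < μ, Sm M C δ.toZFSet) → ¬ Sm M C μ.toZFSet →
  (∀ α : Ordinal.{0}, α.toZFSet ∈ C → α < μ) ∧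
  (∀ x, M x → Sm M C x → x ⊆ μ.toZFSet → ∃ γ < μ, x ⊆ γ.toZFSet) ∧
  IsSuccLimit μ

/-- DI: an ordinal of the size of `C` -/
def T_DI : Prop := ∀ (M : V → Prop), ZFCm M → ∀ C, M C → C.Nonempty →
  ∃ (ρ : Ordinal.{0}) (f g : V), M f ∧ M g ∧ Onto f ρ.toZFSet C ∧ Onto g C ρ.toZFSet

/-! ## The collapse -/

/-- the collapse function of `X` -/
noncomputable def clp (X x : V) : V :=
  ZFSet.range fun y : {y // y ∈ x ∩ X} => clp X y.1
termination_by x.rank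
decreasing_by exact ZFSet.rank_lt_of_mem (ZFSet.mem_inter.1 y.2).1

/-- DJ: the collapse function is uniformly definable -/
def T_DJ : Prop := (∀ X x y, y ∈ clp X x ↔ ∃ z ∈ x, z ∈ X ∧ y = clp X z) ∧
  Tm ZFm (fun _ v => clp (v 0) (v 1))

/-- DK: the collapse of an elementary submodel of a transitive set -/
def T_DK : Prop := ∀ N X : V, N.IsTransitive → N.Nonempty → ElSub X N →
  ∃ f, IsElem (imS X fun x => clp X x) N f ∧ (imS X fun x => clp X x).IsTransitive ∧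
    (∀ y, y ∈ X ↔ ∃ u ∈ (imS X fun x => clp X x), app f u = y) ∧
    (∀ x ∈ X, app f (clp X x) = x) ∧
    (∀ u ∈ (imS X fun x => clp X x), ∀ y, y ∈ u ↔
      y ∈ (imS X fun x => clp X x) ∧ app f y ∈ app f u) ∧
    (∀ t : V, t.IsTransitive → t ⊆ X → ∀ u ∈ t, clp X u = u ∧ app f u = u)

/-- DL: elementary submodels of levels collapse to levels -/
def T_DL : Prop := ∀ (N' N f A : V) (τ : Ordinal.{0}), IsElem N' N f → N'.IsTransitive →
  N'.Nonempty → ZFm (· ∈ N) → A ∈ N' → N = LA (app f A) τ →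
  ∃ τ' : Ordinal.{0}, N' = LA A τ' ∧ ZFm (· ∈ N') ∧
    ∀ α : Ordinal.{0}, α.toZFSet ∈ N' ↔ α < τ'

/-! ## Chains of length `κ`; regular and inaccessible ordinals -/

/-- DM: a continuous increasing chain of transitive sets of regular length, closed under definable
subsets: elementary members, and the union is a model of `ZFm` -/
def T_DM : Prop := ∀ (M : V → Prop), ZFCm M → ∀ (κ : Ordinal.{0}) (H U : V), M H → M κ.toZFSet →
  ω < κ → IsSuccLimit κ →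
  (∀ α < κ, (app H α.toZFSet).IsTransitive) →
  (∀ α < κ, Def (app H α.toZFSet) ∅ ⊆ app H (succ α).toZFSet) →
  (∀ α β, α ≤ β → β < κ → app H α.toZFSet ⊆ app H β.toZFSet) →
  (∀ γ < κ, IsSuccLimit γ → ∀ x ∈ app H γ.toZFSet, ∃ β < γ, x ∈ app H β.toZFSet) →
  (∀ α < κ, ∀ f, M f → ZFSet.IsFunc (app H α.toZFSet) κ.toZFSet f →
    ∃ γ < κ, ∀ x ∈ app H α.toZFSet, app f x ∈ γ.toZFSet) →
  (∀ x, x ∈ U ↔ ∃ α < κ, x ∈ app H α.toZFSet) →
  M U ∧ (∀ α < κ, ∃ β, α < β ∧ β < κ ∧ ElSub (app H β.toZFSet) U ∧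
    ZFm (· ∈ app H β.toZFSet)) ∧ ZFm (· ∈ U) ∧ ∀ α : Ordinal.{0}, α.toZFSet ∈ U ↔ α < κ

/-- DN: bounded subsets of `L_κ`, `κ` regular -/
def T_DN : Prop := ∀ κ θ : Ordinal.{0}, ZFCm (· ∈ LA ∅ θ) → ω < κ → κ < θ →
  (∀ ρ < θ, ∃ ρ', ρ < ρ' ∧ ρ' < θ ∧ ZFm (· ∈ LA ∅ ρ')) →
  (∀ y ∈ LA ∅ κ, ∀ f ∈ LA ∅ θ, ZFSet.IsFunc y κ.toZFSet f →
    ∃ γ < κ, ∀ u ∈ y, app f u ∈ γ.toZFSet) →
  ZFm (· ∈ LA ∅ κ) → ∀ y ∈ LA ∅ κ, ∀ x ∈ LA ∅ θ, x ⊆ y → x ∈ LA ∅ κ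

/-- `κ` is inaccessible in `M` -/
structure Inac (M : V → Prop) (κ : Ordinal.{0}) : Prop where
  mem : M κ.toZFSet
  unc : ω < κ
  reg : ∀ l < κ, ∀ f, M f → ZFSet.IsFunc l.toZFSet κ.toZFSet f →
    ∃ γ < κ, ∀ ξ < l, app f ξ.toZFSet ∈ γ.toZFSet
  str : ∀ l < κ, ∃ τ < κ, ∃ f, M f ∧ ∀ x, M x → x ⊆ l.toZFSet → ∃ ξ < τ, app f ξ.toZFSet = x

/-- `N` is the set `V_κ` of `M` -/
def IsVk (M : V → Prop) (κ : Ordinal.{0}) (N : V) : Prop := ∀ x, x ∈ N ↔ M x ∧ x.rank < κ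

/-- DO: `V_κ` for an inaccessible `κ` -/
def T_DO : Prop := ∀ (M : V → Prop) (κ : Ordinal.{0}), ZFCm M → Inac M κ →
  ∃ N, M N ∧ IsVk M κ N ∧ Gd N ∧ IsSuccLimit κ ∧
    (∀ x ∈ N, x = ∅ ∨ ∃ l < κ, ∃ f ∈ N, Onto f l.toZFSet x) ∧
    (∀ y ∈ N, ∀ x, M x → x ⊆ y → x ∈ N) ∧
    (∀ x ∈ N, ∀ f, M f → ZFSet.IsFunc x N f → f ∈ N) ∧
    (∀ x ∈ N, ∀ f, M f → ZFSet.IsFunc x κ.toZFSet f → ∃ γ < κ, ∀ u ∈ x, app f u ∈ γ.toZFSet) ∧
    (∀ x, M x → (x ∈ N ↔ x ⊆ N ∧ ∃ C ∈ N, Sm M C x))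

/-- DP: `V_κ` is a model of `ZFC` -/
def T_DP : Prop := ∀ (M : V → Prop) (κ : Ordinal.{0}) (N : V), ZFCm M → Inac M κ → IsVk M κ N →
  ZFC (· ∈ N) ∧ ∀ α : Ordinal.{0}, α.toZFSet ∈ N ↔ α < κ

/-- DQ: inaccessibility goes down to constructible inner models -/
def T_DQ : Prop := ∀ (M : V → Prop) (a : V) (κ θ : Ordinal.{0}), ZFCm M → M a →
  (∀ α : Ordinal.{0}, M α.toZFSet ↔ α < θ) → a ∈ LA a θ → Inac M κ →
  Inac (· ∈ LA a θ) κ

/-- DR: the part below an inaccessible `κ` of a model `L_θ[a]` is the union of the `L_γ[a|λ]` -/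
def T_DR : Prop := ∀ (a : V) (κ θ : Ordinal.{0}), ZFCm (· ∈ LA a θ) → a ∈ LA a θ →
  Inac (· ∈ LA a θ) κ → (∀ ρ < θ, ∃ ρ', ρ < ρ' ∧ ρ' < θ ∧ ZFm (· ∈ LA a ρ')) →
  (∀ z ∈ a, ∃ i < κ, ∃ q, z = ZFSet.pair i.toZFSet q) →
  (∀ i < κ, ∃ δ < κ, ∀ q, ZFSet.pair i.toZFSet q ∈ a → q.rank < δ) →
  ∀ x ∈ LA a θ, x.rank < κ →
    ∃ l < κ, ∃ γ < κ, x ∈ LA (a.sep fun z => fst z ∈ l.toZFSet) γ

/-! ## Forcing -/

/-- DS: forcing toolkit. For every uniformly definable relation `R` the set `O` of the conditions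
which force `R` (with the generic filter and names or elements `v` of the ground model as
arguments) is uniformly definable. -/
def T_DS : Prop := ∀ R : (V → Prop) → (ℕ → V) → Prop, Dfb ZFm R →
  ∃ O : (V → Prop) → (ℕ → V) → V, Tm ZFm O ∧ ∀ (M : V → Prop) (c r : V) (v : ℕ → V),
    ZFm M → M c → M r → IsPo c r → In M v →
    RegO c r (O M (cons c (cons r v))) ∧
    (∀ G, Gen M c r G → (R (Ext M G) (cons G v) ↔ ∃ p ∈ G, p ∈ O M (cons c (cons r v)))) ∧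
    ({x | M x}.Countable → ∀ p ∈ c, (p ∈ O M (cons c (cons r v)) ↔
      ∀ G, Gen M c r G → p ∈ G → R (Ext M G) (cons G v)))

/-- DT: homogeneity: if every condition belongs to a generic filter whose extension is `B'`, then
`B` contains the sets which are definable over `B'` with parameters from `B` -/
def T_DT : Prop := ∀ (B B' : V → Prop) (c r : V), ZFm B → {x | B x}.Countable → B c → B r →
  IsPo c r → (∀ p ∈ c, ∃ g, Gen B c r g ∧ p ∈ g ∧ ∀ y, B' y ↔ Ext B g y) →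
  ∀ R : (V → Prop) → (ℕ → V) → Prop, Dfb ZFm R → ∀ (u : V) (v : ℕ → V), B u → In B v →
    B (u.sep fun x => R B' (cons x v))

/-- DU: `L_θ[a]` as an inner model of a model of height `θ` -/
def T_DU : Prop := ∀ (M : V → Prop) (a : V) (θ : Ordinal.{0}), ZFm M → M a →
  (∀ α : Ordinal.{0}, M α.toZFSet ↔ α < θ) → IsSuccLimit θ ∧
  (∀ x ∈ LA a θ, M x) ∧ ZFm (· ∈ LA a θ) ∧ (∀ α : Ordinal.{0}, α.toZFSet ∈ LA a θ ↔ α < θ) ∧
  ((∀ x ∈ a, x ∈ LA a θ) → a ∈ LA a θ ∧ ZFCm (· ∈ LA a θ))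

/-! ## Stationary logic -/

/-- DV: the satisfaction relation of every formula is uniformly definable (`N` is a set here) -/
def T_DV : Prop := ∀ φ : AF, Dfb ZFm fun _ w => AaSat (· ∈ w 0) (w 1) φ (fun i => w (2 * i + 2))
  fun i => w (2 * i + 3)

/-- DW: the hierarchy is uniformly definable (`N` is a set here) -/
def T_DW : Prop := Tm ZFm fun _ v => La (· ∈ v 0) (v 1).rank

/-- DX: basic facts on the hierarchy -/
def T_DX : Prop := ∀ (N : V → Prop),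
  (∀ α β, α ≤ β → La N α ⊆ La N β) ∧ (∀ α, (La N α).IsTransitive) ∧
  (∀ γ, IsSuccLimit γ → ∀ x ∈ La N γ, ∃ β < γ, x ∈ La N β) ∧
  (∀ α, La N (succ α) = DefA N (La N α)) ∧ (∀ α, Def (La N α) ∅ ⊆ La N (succ α)) ∧
  ∀ α x, x ∈ La N α ↔ ∃ β < α, x ∈ DefA N (La N β)

/-- a sequence of partial finitary functions on `A` -/
structure FinP (A F : V) : Prop where
  sub : ∀ z ∈ F, ∃ (n : ℕ) (l : List V) (y : V), (∀ p ∈ l, p ∈ A) ∧ y ∈ A ∧
    z = ZFSet.pair (nS n) (ZFSet.pair (lc l) y)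
  svl : ∀ (n : ℕ) (l : List V) (y y' : V), ZFSet.pair (nS n) (ZFSet.pair (lc l) y) ∈ F →
    ZFSet.pair (nS n) (ZFSet.pair (lc l) y') ∈ F → y = y'

/-- DY: partial functions can be used instead of total functions -/
def T_DY : Prop := ∀ (N : V → Prop), ZFm N → ∀ (A F : V), N A → N F → A.Nonempty → FinP A F →
  ∃ F', N F' ∧ FinF A F' ∧ ∀ z, z ⊆ A → Clo F' z → Clo F z

/-- DZ: for transitive `N` the class `CA N` in terms of a set -/
def T_DZ : Prop := ∀ (N : V) (κ : Ordinal.{0}), IsSuccLimit κ →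
  (∀ α : Ordinal.{0}, α.toZFSet ∈ N ↔ α < κ) → ∀ x, CA (· ∈ N) x ↔ x ∈ La (· ∈ N) κ

end CAA
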