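import Pool.Agent.H9.CA.TarG
import Pool.Agent.H9.SG.H68LT4

/-!
# Part U: the ground model from universe 1. Targets

`SG` is a copy of the library `SF` for `ZFSet.{1}` (`Pool/Agent/H9/SG/*.lean`, made by `sed`). -/

set_option linter.unusedVariables false

open Ordinal Order Set
open scoped ZFSet

namespace CAB

open SG

/-- `κ` is inaccessible in `M` -/
structure Inac (M : V → Prop) (κ : Ordinal.{1}) : Prop where
  mem : M κ.toZFSet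
  unc : ω < κ
  reg : ∀ l < κ, ∀ f, M f → ZFSet.IsFunc l.toZFSet κ.toZFSet f →
    ∃ γ < κ, ∀ ξ < l, app f ξ.toZFSet ∈ γ.toZFSet
  str : ∀ l < κ, ∃ τ < κ, ∃ f, M f ∧ ∀ x, M x → x ⊆ l.toZFSet → ∃ ξ < τ, app f ξ.toZFSet = x

/-- the properties of the ordinals `κ < χ < θ` -/
def Good (κ χ θ : Ordinal.{1}) : Prop :=
  ZFCm (· ∈ LA ∅ θ) ∧ (∀ α : Ordinal.{1}, α.toZFSet ∈ LA ∅ θ ↔ α < θ) ∧ IsSuccLimit θ ∧
  (∀ ρ < θ, ∃ ρ', ρ < ρ' ∧ ρ' < θ ∧ ZFm (· ∈ LA ∅ ρ')) ∧ κ < χ ∧ χ < θ ∧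
  Inac (· ∈ LA ∅ θ) κ ∧ ∀ f ∈ LA ∅ θ, ¬ Onto f (LA ∅ κ) χ.toZFSet

/-- UB: in universe 1 there are such ordinals -/
def T_UB : Prop := ∃ κ χ θ : Ordinal.{1}, Good κ χ θ

/-- UC: there are such ordinals with a countable level -/
def T_UC : Prop := (∃ κ χ θ : Ordinal.{1}, Good κ χ θ) →
  ∃ κ χ θ : Ordinal.{1}, ((LA ∅ θ : V) : Set V).Countable ∧ Good κ χ θ

/-- UD: countable transitive sets of universe 1 have isomorphic copies in universe 0 -/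
def T_UD : Prop := ∀ x : ZFSet.{1}, x.IsTransitive → (x : Set ZFSet.{1}).Countable →
  ∃ (x₀ : ZFSet.{0}) (e : ZFSet.{1} → ZFSet.{0}), x₀.IsTransitive ∧
    (x₀ : Set ZFSet.{0}).Countable ∧ (∀ y ∈ x, e y ∈ x₀) ∧ (∀ z ∈ x₀, ∃ y ∈ x, e y = z) ∧
    (∀ y ∈ x, ∀ z ∈ x, e y = e z → y = z) ∧ ∀ y ∈ x, ∀ z, z ∈ e y ↔ ∃ u ∈ y, e u = z

/-- UE: transfer to universe 0 -/
def T_UE : Prop := (∃ κ χ θ : Ordinal.{1}, ((LA ∅ θ : V) : Set V).Countable ∧ Good κ χ θ) →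
  CAA.T_U

end CAB
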